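import Pool.Agent.KlCD94.Equal

/-!
# The Ahlfors regular conformal dimension and geometric actions

For every hyperbolic group the Ahlfors regular conformal dimension of the boundary equals the
infimum of the Hausdorff dimensions of the visual metrics of all geometric actions.
-/

namespace Pool.Agent.Results.MP_0b9722_gt.ConfDimEquality

open Pool.Agent.KlCD94

theorem result : ∀ (G : Type) [Group G], IsHyperbolicGroup G → ACD G = VD G :=
  fun _ _ hG => ACD_eq_VD hG

end Pool.Agent.Results.MP_0b9722_gt.ConfDimEquality
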